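import Mathlib
import Pool.Agent.Helper26.HI.Defs

/-!
# HI, block LO: extension of a ring homomorphism into `ℂ` to an integral extension
-/

set_option autoImplicit false

namespace Pool.Agent.Helper26.HI

/-- **LO**: extension of a ring homomorphism into `ℂ` to an integral extension -/
theorem extend_hom {A B : Type} [CommRing A] [CommRing B] [Algebra A B] [Algebra.IsIntegral A B]
    (hinj : Function.Injective (algebraMap A B)) (f : A →+* ℂ) : ∃ φ : B →+* ℂ, ∀ a, φ (algebraMap A B a) = f a := by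
  have hker : (RingHom.ker f).IsPrime := RingHom.ker_isPrime f
  obtain ⟨Q, -, hQp, hQ⟩ := Ideal.exists_ideal_over_prime_of_isIntegral (S := B) (RingHom.ker f) (⊥ : Ideal B) (by
    intro a ha
    have h0 : algebraMap A B a = 0 := by simpa using ha
    have : a = 0 := hinj (by rw [h0, map_zero])
    rw [this]
    exact zero_mem _)
  have hle : ∀ a ∈ Q.comap (algebraMap A B), f a = 0 := by
    intro a ha
    rw [hQ] at ha
    exact ha
  let g : A ⧸ Q.comap (algebraMap A B) →+* ℂ := Ideal.Quotient.lift _ f hle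
  have hg : Function.Injective g := by
    rw [injective_iff_map_eq_zero]
    intro x hx
    obtain ⟨a, rfl⟩ := Ideal.Quotient.mk_surjective x
    rw [Ideal.Quotient.eq_zero_iff_mem, hQ]
    exact hx
  let : Algebra (A ⧸ Q.comap (algebraMap A B)) ℂ := g.toAlgebra
  have h1 : IsDomain (A ⧸ Q.comap (algebraMap A B)) := Ideal.Quotient.isDomain _
  have h2 : IsDomain (B ⧸ Q) := Ideal.Quotient.isDomain _
  have h3 : Algebra.IsIntegral (A ⧸ Q.comap (algebraMap A B)) (B ⧸ Q) := inferInstance
  have h4 : Module.IsTorsionFree (A ⧸ Q.comap (algebraMap A B)) (B ⧸ Q) :=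
    (Module.isTorsionFree_iff_algebraMap_injective).2 Ideal.algebraMap_quotient_injective
  have h5 : Module.IsTorsionFree (A ⧸ Q.comap (algebraMap A B)) ℂ :=
    (Module.isTorsionFree_iff_algebraMap_injective).2 hg
  have h6 : Algebra.IsAlgebraic (A ⧸ Q.comap (algebraMap A B)) (B ⧸ Q) := inferInstance
  let ψ : (B ⧸ Q) →ₐ[A ⧸ Q.comap (algebraMap A B)] ℂ := IsAlgClosed.lift
  refine ⟨ψ.toRingHom.comp (Ideal.Quotient.mk Q), fun a => ?_⟩
  have e : Ideal.Quotient.mk Q (algebraMap A B a)
      = algebraMap (A ⧸ Q.comap (algebraMap A B)) (B ⧸ Q) (Ideal.Quotient.mk _ a) := rfl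
  change ψ (Ideal.Quotient.mk Q (algebraMap A B a)) = f a
  rw [e, AlgHom.commutes]
  rfl

end Pool.Agent.Helper26.HI
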