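import Mathlib
import Pool.Agent.Helper26.HI.Defs
import Pool.Agent.Helper64.HI.LO

/-!
# HI, block RS: the resolvents
-/

set_option autoImplicit false

namespace Pool.Agent.Helper26.HI

open MvPolynomial

/-- a monic polynomial splits over an integral extension -/
theorem exists_split64 {A : Type} [CommRing A] [IsDomain A] (P : Polynomial A) (hPm : P.Monic) :
    ∃ (B : Type) (_ : CommRing B) (_ : IsDomain B) (_ : Algebra A B), Algebra.IsIntegral A B ∧
      Function.Injective (algebraMap A B) ∧
      ∃ R : Multiset B, P.map (algebraMap A B) = (R.map fun e => Polynomial.X - Polynomial.C e).prod := by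
  let Ω := AlgebraicClosure (FractionRing A)
  have hΩ : Function.Injective (algebraMap A Ω) := by
    rw [IsScalarTower.algebraMap_eq A (FractionRing A) Ω]
    exact (algebraMap (FractionRing A) Ω).injective.comp (IsFractionRing.injective A (FractionRing A))
  let B := integralClosure A Ω
  have hBΩ : Function.Injective (algebraMap B Ω) := Subtype.val_injective
  have hAB : Function.Injective (algebraMap A B) := by
    have h : Function.Injective ((algebraMap B Ω) ∘ (algebraMap A B)) := by
      have := IsScalarTower.algebraMap_eq A B Ω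
      rw [← RingHom.coe_comp, ← this]
      exact hΩ
    exact h.of_comp
  refine ⟨B, inferInstance, inferInstance, inferInstance, inferInstance, hAB, ?_⟩
  have hs : P.map (algebraMap A Ω) = ((P.map (algebraMap A Ω)).roots.map fun e => Polynomial.X - Polynomial.C e).prod :=
    (IsAlgClosed.splits (P.map (algebraMap A Ω))).eq_prod_roots_of_monic (hPm.map _)
  have hi : ∀ x ∈ (P.map (algebraMap A Ω)).roots, x ∈ B := by
    intro x hx
    refine ⟨P, hPm, ?_⟩
    have := (Polynomial.mem_roots'.1 hx).2
    rwa [Polynomial.IsRoot, Polynomial.eval_map] at this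
  generalize (P.map (algebraMap A Ω)).roots = R at hs hi
  lift R to Multiset B using hi
  refine ⟨R, Polynomial.map_injective _ hBΩ ?_⟩
  rw [Polynomial.map_map, ← IsScalarTower.algebraMap_eq A B Ω, hs, Multiset.map_map, Polynomial.map_multiset_prod,
    Multiset.map_map]
  congr 1
  refine Multiset.map_congr rfl fun e _ => ?_
  simp [B]

theorem exists_sub64 {α β : Type*} (f : α → β) (s : Multiset α) (t : Multiset β) (h : t ≤ s.map f) :
    ∃ u ≤ s, u.map f = t := by
  classical
  induction s using Multiset.induction_on generalizing t with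
  | empty =>
    refine ⟨0, le_rfl, ?_⟩
    simpa using (h.antisymm (by simp)).symm
  | cons a s ih =>
    rw [Multiset.map_cons] at h
    by_cases ha : f a ∈ t
    · obtain ⟨u, hu, hu'⟩ := ih (t.erase (f a)) (by
        rw [← Multiset.erase_cons_head (f a) (Multiset.map f s)]
        exact Multiset.erase_le_erase _ h)
      refine ⟨a ::ₘ u, Multiset.cons_le_cons _ hu, ?_⟩
      rw [Multiset.map_cons, hu', Multiset.cons_erase ha]
    · obtain ⟨u, hu, hu'⟩ := ih t ((Multiset.le_cons_of_notMem ha).1 h)
      exact ⟨u, hu.trans (Multiset.le_cons_self _ _), hu'⟩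

/-- a proper part of the product is not defined over the base -/
theorem exists_coeff64 {A B : Type} [CommRing A] [CommRing B] [IsDomain A] [IsDomain B] [Algebra A B]
    (hinj : Function.Injective (algebraMap A B)) (P : Polynomial A) (hPm : P.Monic) (hirr : Irreducible P)
    (R : Multiset B) (hR : P.map (algebraMap A B) = (R.map fun e => Polynomial.X - Polynomial.C e).prod)
    (I : Multiset B) (hI : I ≤ R) (hI0 : I ≠ 0) (hIR : I ≠ R) :
    ∃ k, (I.map fun e => Polynomial.X - Polynomial.C e).prod.coeff k ∉ (algebraMap A B).range := by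
  by_contra hcon
  push Not at hcon
  set g := (I.map fun e => Polynomial.X - Polynomial.C e).prod with hg
  have hgm : g.Monic := Polynomial.monic_multiset_prod_of_monic _ _ fun e _ => Polynomial.monic_X_sub_C e
  have hgd : g.natDegree = I.card := Polynomial.natDegree_multiset_prod_X_sub_C_eq_card _
  have hPd : P.natDegree = R.card := by
    rw [← Polynomial.natDegree_multiset_prod_X_sub_C_eq_card R, ← hR, Polynomial.natDegree_map_eq_of_injective hinj]
  have hlift : g ∈ Polynomial.lifts (algebraMap A B) := by
    rw [Polynomial.lifts_iff_coeff_lifts]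
    intro k
    exact hcon k
  obtain ⟨G, hG, hGd, hGm⟩ := Polynomial.lifts_and_natDegree_eq_and_monic hlift hgm
  have hdvd : G ∣ P := by
    rw [← Polynomial.map_dvd_map (algebraMap A B) hinj hGm, hG, hR, hg]
    exact Multiset.prod_dvd_prod_of_le (Multiset.map_le_map hI)
  obtain ⟨H, hH⟩ := hdvd
  have hHm : H.Monic := hGm.of_mul_monic_left (hH ▸ hPm)
  have hdeg : P.natDegree = G.natDegree + H.natDegree := by rw [hH, hGm.natDegree_mul hHm]
  have hc1 : 0 < I.card := Multiset.card_pos.2 hI0
  have hc2 : I.card < R.card := Multiset.card_lt_card (lt_of_le_of_ne hI hIR)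
  rcases hirr.isUnit_or_isUnit hH with h | h
  · rw [hGm.isUnit_iff] at h
    rw [h, Polynomial.natDegree_one] at hGd
    omega
  · rw [hHm.isUnit_iff] at h
    rw [h, Polynomial.natDegree_one] at hdeg
    omega

/-- **RS**: the resolvents -/
theorem resolvents {r : ℕ} (P : Polynomial (MvPolynomial (Fin r) ℤ)) (hPm : P.Monic) (hirr : Irreducible P) :
    ∃ S : Finset (Polynomial (MvPolynomial (Fin r) ℤ)),
      (∀ Q ∈ S, Q.Monic ∧ Irreducible Q ∧ 2 ≤ Q.natDegree) ∧
      ∀ t : Fin r → ℤ, (∀ Q ∈ S, ∀ x : ℤ, V Q t x ≠ 0) → Irreducible (P.map (eval t)) := by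
  classical
  obtain ⟨B, _, _, _, hint, hinj, R, hR⟩ := exists_split64 P hPm
  have hPd : P.natDegree = R.card := by
    rw [← Polynomial.natDegree_multiset_prod_X_sub_C_eq_card R, ← hR, Polynomial.natDegree_map_eq_of_injective hinj]
  have hch : ∀ I : Multiset B, ∃ k, I ≤ R → I ≠ 0 → I ≠ R →
      (I.map fun e => Polynomial.X - Polynomial.C e).prod.coeff k ∉ (algebraMap (MvPolynomial (Fin r) ℤ) B).range := by
    intro I
    by_cases h : I ≤ R ∧ I ≠ 0 ∧ I ≠ R
    · obtain ⟨k, hk⟩ := exists_coeff64 hinj P hPm hirr R hR I h.1 h.2.1 h.2.2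
      exact ⟨k, fun _ _ _ => hk⟩
    · exact ⟨0, fun h1 h2 h3 => absurd ⟨h1, h2, h3⟩ h⟩
  choose k hk using hch
  let c : Multiset B → B := fun I => (I.map fun e => Polynomial.X - Polynomial.C e).prod.coeff (k I)
  refine ⟨(R.powerset.toFinset.filter fun I => I ≠ 0 ∧ I ≠ R).image fun I => minpoly (MvPolynomial (Fin r) ℤ) (c I), ?_, ?_⟩
  · intro Q hQ
    obtain ⟨I, hI, rfl⟩ := Finset.mem_image.1 hQ
    rw [Finset.mem_filter, Multiset.mem_toFinset, Multiset.mem_powerset] at hI
    have hi := hint.isIntegral (c I)
    exact ⟨minpoly.monic hi, minpoly.irreducible hi, (minpoly.two_le_natDegree_iff hi).2 (hk I hI.1 hI.2.1 hI.2.2)⟩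
  · intro t ht
    obtain ⟨φ, hφ⟩ := extend_hom hinj ((Int.castRingHom ℂ).comp (eval t))
    have hφ' : φ.comp (algebraMap (MvPolynomial (Fin r) ℤ) B) = (Int.castRingHom ℂ).comp (eval t) := RingHom.ext hφ
    have hPC : (P.map (eval t)).map (Int.castRingHom ℂ) = ((R.map φ).map fun e => Polynomial.X - Polynomial.C e).prod := by
      rw [Polynomial.map_map, ← hφ', ← Polynomial.map_map, hR, Polynomial.map_multiset_prod, Multiset.map_map, Multiset.map_map]
      congr 1
      refine Multiset.map_congr rfl fun e _ => ?_
      simp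
    have hPt : (P.map (eval t)).Monic := hPm.map _
    rw [hPt.irreducible_iff_natDegree]
    refine ⟨?_, ?_⟩
    · intro h1
      have h2 : (P.map (eval t)).natDegree = P.natDegree := hPm.natDegree_map _
      rw [h1, Polynomial.natDegree_one] at h2
      have h3 : P = 1 := hPm.natDegree_eq_zero.1 h2.symm
      exact hirr.not_isUnit (h3 ▸ isUnit_one)
    · intro f g hf hg hfg
      by_contra hcon
      push Not at hcon
      have hic : Function.Injective (Int.castRingHom ℂ) := Int.cast_injective
      have hdvd : f.map (Int.castRingHom ℂ) ∣ ((R.map φ).map fun e => Polynomial.X - Polynomial.C e).prod := by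
        rw [← hPC, ← hfg, Polynomial.map_mul]
        exact Dvd.intro _ rfl
      have hne : ((R.map φ).map fun e => Polynomial.X - Polynomial.C e).prod ≠ 0 :=
        (Polynomial.monic_multiset_prod_of_monic _ _ fun e _ => Polynomial.monic_X_sub_C e).ne_zero
      have hle := Polynomial.roots.le_of_dvd hne hdvd
      rw [Polynomial.roots_multiset_prod_X_sub_C] at hle
      obtain ⟨I, hI, hI'⟩ := exists_sub64 φ R _ hle
      have hfC : f.map (Int.castRingHom ℂ) = ((I.map φ).map fun e => Polynomial.X - Polynomial.C e).prod := by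
        rw [hI']
        exact (IsAlgClosed.splits (f.map (Int.castRingHom ℂ))).eq_prod_roots_of_monic (hf.map _)
      have hfd : f.natDegree = I.card := by
        rw [← Polynomial.natDegree_map_eq_of_injective hic f, hfC, Polynomial.natDegree_multiset_prod_X_sub_C_eq_card,
          Multiset.card_map]
      have hPd' : P.natDegree = f.natDegree + g.natDegree := by
        rw [← hf.natDegree_mul hg, hfg, hPm.natDegree_map]
      have hI0 : I ≠ 0 := by
        rintro rfl
        rw [Multiset.card_zero] at hfd
        exact hcon.1 hfd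
      have hIR : I ≠ R := by
        rintro rfl
        exact hcon.2 (by omega)
      have hmem : minpoly (MvPolynomial (Fin r) ℤ) (c I) ∈
          (R.powerset.toFinset.filter fun I => I ≠ 0 ∧ I ≠ R).image fun I => minpoly (MvPolynomial (Fin r) ℤ) (c I) := by
        refine Finset.mem_image.2 ⟨I, ?_, rfl⟩
        rw [Finset.mem_filter, Multiset.mem_toFinset, Multiset.mem_powerset]
        exact ⟨hI, hI0, hIR⟩
      refine ht _ hmem (f.coeff (k I)) ?_
      have hφc : φ (c I) = ((f.coeff (k I) : ℤ) : ℂ) := by
        have h1 : (f.map (Int.castRingHom ℂ)).coeff (k I) = ((f.coeff (k I) : ℤ) : ℂ) := by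
          rw [Polynomial.coeff_map]
          rfl
        rw [← h1, hfC, ← Polynomial.coeff_map]
        congr 1
        rw [Polynomial.map_multiset_prod, Multiset.map_map, Multiset.map_map]
        congr 1
        refine Multiset.map_congr rfl fun e _ => ?_
        simp
      have h2 : φ (Polynomial.aeval (c I) (minpoly (MvPolynomial (Fin r) ℤ) (c I))) = 0 := by
        rw [minpoly.aeval, map_zero]
      rw [Polynomial.aeval_def, Polynomial.hom_eval₂, hφ', hφc] at h2
      have h3 : ((V (minpoly (MvPolynomial (Fin r) ℤ) (c I)) t (f.coeff (k I)) : ℤ) : ℂ) = 0 := by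
        unfold V
        rw [← h2, Polynomial.eval_map]
        exact Polynomial.hom_eval₂ _ (eval t) (Int.castRingHom ℂ) (f.coeff (k I))
      exact_mod_cast h3

end Pool.Agent.Helper26.HI
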