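import Mathlib
import Pool.Agent.Helper26.OB.Defs

/-!
# HI, block UR3: every residue is the residue of a complex number
-/

set_option autoImplicit false

namespace Pool.Agent.Helper26.HI

open Pool.Agent.Helper87.FK Pool.Agent.Helper26.OB

theorem pow_of_int64 {p : ℕ} [Fact p.Prime] {κ : Type*} [Field κ] [Algebra (ZMod p) κ] (x : κ) (hx : x ≠ 0)
    (hint : IsIntegral (ZMod p) x) : ∃ n : ℕ, 0 < n ∧ x ^ n = 1 := by
  have : FiniteDimensional (ZMod p) (IntermediateField.adjoin (ZMod p) {x}) :=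
    IntermediateField.adjoin.finiteDimensional hint
  have : Finite (IntermediateField.adjoin (ZMod p) {x}) := Module.finite_of_finite (ZMod p)
  let _ : Fintype (IntermediateField.adjoin (ZMod p) {x}) := Fintype.ofFinite _
  let g : IntermediateField.adjoin (ZMod p) {x} := ⟨x, IntermediateField.mem_adjoin_simple_self (ZMod p) x⟩
  have hg : g ≠ 0 := fun h => hx (congrArg Subtype.val h)
  have h1 := FiniteField.pow_card_sub_one_eq_one g hg
  have h2 : 1 < Fintype.card (IntermediateField.adjoin (ZMod p) {x}) := Fintype.one_lt_card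
  refine ⟨Fintype.card (IntermediateField.adjoin (ZMod p) {x}) - 1, by omega, ?_⟩
  exact congrArg Subtype.val h1

theorem one_le_norm_prod64 {K : Type*} [NormedField K] (s : Multiset K) : (∀ z ∈ s, 1 ≤ ‖z‖) → 1 ≤ ‖s.prod‖ := by
  induction s using Multiset.induction_on with
  | empty => intro _; simp
  | cons a s ih =>
    intro h
    rw [Multiset.prod_cons, norm_mul]
    exact one_le_mul_of_one_le_of_one_le (h a (Multiset.mem_cons_self a s)) (ih fun z hz => h z (Multiset.mem_cons_of_mem hz))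

/-- the residue field is algebraic over the prime field: nonzero elements are roots of unity -/
theorem exists_pow64 {p : ℕ} [Fact p.Prime] (x : kk p) (hx : x ≠ 0) : ∃ n : ℕ, 0 < n ∧ x ^ n = 1 := by
  classical
  have : CharP (kk p) p := charP_kk p
  let _ : Algebra (ZMod p) (kk p) := ZMod.algebra (kk p) p
  have hint : IsIntegral (ZMod p) x := by
    obtain ⟨y, rfl⟩ := Ideal.Quotient.mk_surjective x
    obtain ⟨P, hPm, hP⟩ := y.2
    refine ⟨P.map PadicInt.toZMod, hPm.map _, ?_⟩
    have h1 : Polynomial.eval₂ (algebraMap ℤ_[p] (Oc p)) y P = 0 := by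
      apply Subtype.val_injective
      have := Polynomial.hom_eval₂ P (algebraMap ℤ_[p] (Oc p)) (algebraMap (Oc p) (PadicAlgCl p)) y
      rw [← IsScalarTower.algebraMap_eq] at this
      exact this.trans hP
    have h2 : (Ideal.Quotient.mk (mm p)).comp (algebraMap ℤ_[p] (Oc p)) = (algebraMap (ZMod p) (kk p)).comp PadicInt.toZMod := by
      refine RingHom.ext fun c => ?_
      have h3 := PadicInt.toZMod_spec c
      rw [PadicInt.maximalIdeal_eq_span_p, Ideal.mem_span_singleton] at h3
      obtain ⟨d, hd⟩ := h3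
      have h4 : c = (PadicInt.toZMod c).val + (p : ℤ_[p]) * d := by
        rw [← hd, ZMod.natCast_val]
        ring
      have h5 : Ideal.Quotient.mk (mm p) ((p : ℕ) : Oc p) = 0 := Ideal.Quotient.eq_zero_iff_mem.2 p_mem_mm
      change Ideal.Quotient.mk (mm p) (algebraMap ℤ_[p] (Oc p) c) = algebraMap (ZMod p) (kk p) (PadicInt.toZMod c)
      have h6 : algebraMap (ZMod p) (kk p) (PadicInt.toZMod c) = (((PadicInt.toZMod c).val : ℕ) : kk p) := by
        conv_lhs => rw [← ZMod.natCast_zmod_val (PadicInt.toZMod c)]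
        rw [map_natCast]
      rw [h6]
      conv_lhs => rw [h4]
      rw [map_add, map_add, map_mul, map_mul, map_natCast, map_natCast, map_natCast, h5, zero_mul, add_zero]
    rw [Polynomial.eval₂_map, ← h2, ← Polynomial.hom_eval₂, h1, map_zero]
  exact pow_of_int64 x hx hint

/-- **UR3** (the image of `τ` contains the roots of unity of `PadicAlgCl p`) -/
theorem rd_surj {p : ℕ} [Fact p.Prime] (τ : ℂ →+* PadicAlgCl p) (x : kk p) : ∃ z : ℂ, ‖τ z‖ ≤ 1 ∧ rd τ z = x := by
  classical
  by_cases hx : x = 0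
  · refine ⟨0, by simp, ?_⟩
    have h : ‖τ 0‖ ≤ 1 := by simp
    unfold rd
    rw [dif_pos h, hx, Ideal.Quotient.eq_zero_iff_mem, mem_mm]
    simp
  · obtain ⟨n, hn, hxn⟩ := exists_pow64 x hx
    obtain ⟨y, rfl⟩ := Ideal.Quotient.mk_surjective x
    have hy : ‖(y : PadicAlgCl p) ^ n - 1‖ < 1 := by
      rw [← map_pow, ← map_one (Ideal.Quotient.mk (mm p)), Ideal.Quotient.eq, mem_mm] at hxn
      simpa using hxn
    have hm : (Polynomial.X ^ n - 1 : Polynomial ℂ).Monic := Polynomial.monic_X_pow_sub_C 1 hn.ne'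
    have hs := (IsAlgClosed.splits (Polynomial.X ^ n - 1 : Polynomial ℂ)).eq_prod_roots_of_monic hm
    have hr : ∀ ζ ∈ (Polynomial.X ^ n - 1 : Polynomial ℂ).roots, ζ ^ n = 1 := by
      intro ζ hζ
      have := (Polynomial.mem_roots'.1 hζ).2
      simp only [Polynomial.IsRoot, Polynomial.eval_sub, Polynomial.eval_pow, Polynomial.eval_X, Polynomial.eval_one] at this
      exact sub_eq_zero.1 this
    generalize (Polynomial.X ^ n - 1 : Polynomial ℂ).roots = R at hs hr
    have h1 : (y : PadicAlgCl p) ^ n - 1 = (R.map fun ζ => (y : PadicAlgCl p) - τ ζ).prod := by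
      have h2 := congrArg (fun f : Polynomial ℂ => Polynomial.eval₂ τ (y : PadicAlgCl p) f) hs
      simp only [Polynomial.eval₂_sub, Polynomial.eval₂_pow, Polynomial.eval₂_X, Polynomial.eval₂_one] at h2
      rw [h2, ← Polynomial.coe_eval₂RingHom, map_multiset_prod, Multiset.map_map]
      congr 1
      refine Multiset.map_congr rfl fun ζ _ => ?_
      simp
    have hex : ∃ ζ ∈ R, ‖(y : PadicAlgCl p) - τ ζ‖ < 1 := by
      by_contra hcon
      push Not at hcon
      have h3 : 1 ≤ ‖(R.map fun ζ => (y : PadicAlgCl p) - τ ζ).prod‖ := by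
        refine one_le_norm_prod64 _ fun z hz => ?_
        obtain ⟨ζ, hζ, rfl⟩ := Multiset.mem_map.1 hz
        exact hcon ζ hζ
      rw [← h1] at h3
      exact absurd hy (not_lt.2 h3)
    obtain ⟨ζ, hζ, hlt⟩ := hex
    have hn1 : ‖τ ζ‖ ≤ 1 := by
      have h5 : ‖τ ζ‖ ^ n = 1 := by rw [← norm_pow, ← map_pow, hr ζ hζ, map_one, norm_one]
      exact ((pow_eq_one_iff_of_nonneg (norm_nonneg _) hn.ne').1 h5).le
    refine ⟨ζ, hn1, ?_⟩
    unfold rd
    rw [dif_pos hn1, Ideal.Quotient.eq, mem_mm]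
    have h6 : ‖τ ζ - (y : PadicAlgCl p)‖ < 1 := by rwa [norm_sub_rev]
    simpa using h6

end Pool.Agent.Helper26.HI
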